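import Pool.Agent.Helper501.Eps.Main

/-!
Types of instances of valid equations with few reachable configurations, and the number of proper
derivatives of a term.
-/

namespace Pool.Agent.Y668.BB

open Relation Pool.Agent.Helper501.Eps Pool.Agent.Helper501.Eps.Term Pool.Agent.Helper501.Eps.Ph

section Few

variable {L A : Type*} {M : ℕ} {σ : L → Term A} {l l' : Term L} {F : Set Ph} {fl : Prop}

/-- fewer than `M` properly reachable configurations -/
def Few (M : ℕ) (σ : L → Term A) (l : Term L) : Prop :=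
  ∀ f : Fin M → List (Term L), Function.Injective f → ¬ ∀ j, PR σ l (f j)

theorem UQf (hM : 2 ≤ M) (hl : Few M σ l) {c1 c2 : List (Term L)} {G1 G2 : Set Ph} (h1 : PR σ l c1 ∨ c1 = [l])
    (h2 : PR σ l c2 ∨ c2 = [l]) (hB : LB (dS σ) c1 c2) (t1 : TyL (dS σ) (TS M σ) c1 F fl G1)
    (t2 : TyL (dS σ) (TS M σ) c2 F fl G2) : G1 = G2 := by
  rcases UQ hM h1 h2 hB t1 t2 with h | ⟨f, hf, hf2⟩
  · exact h
  · exact absurd hf2 (hl f hf)

/-- the type of an entered configuration is the set of phases of its successors -/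
theorem GG_eqf (hM : 2 ≤ M) (hl : Few M σ l) {c : List (Term L)} {G : Set Ph} (h : G0 M σ l F fl c G) :
    GG M σ l F fl c = G := by
  obtain ⟨d, h1, h2, h3⟩ := h
  ext g
  constructor
  · rintro (⟨z, c', h4, G'', Hz'', ⟨d'', h5, h6, h7⟩, h8, h9⟩ | ⟨h4, h5⟩)
    · obtain ⟨w, h10, h11⟩ := h2.bwd h4
      obtain ⟨G', Hz, h12, h13, h14⟩ := SR2L h3 h10
      obtain rfl := UQf hM hl (Or.inl (h1.next h10)) (Or.inl h5) (h11.trans h6.symm) h12 h7
      have e : (dnL (dS σ) w ∧ fl) = (dnL (dS σ) c' ∧ fl) := by rw [h11.dn_iff]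
      rw [e] at h13
      rw [TS_fun (by omega) h8 h13] at h9
      exact h14 h9
    · exact TyL_sub h3 (h2.dn_iff.2 h4) h5
  · intro hg
    rcases SR1L h3 hg with ⟨z, w, G', Hz, h4, h5, h6, h7⟩ | ⟨h4, h5⟩
    · obtain ⟨c', h8, h9⟩ := h2.fwd h4
      have e : (dnL (dS σ) w ∧ fl) = (dnL (dS σ) c' ∧ fl) := by rw [h9.dn_iff]
      rw [e] at h6
      exact Or.inl ⟨z, c', h8, G', Hz, ⟨w, h1.next h4, h9, h5⟩, h6, h7⟩
    · exact Or.inr ⟨h2.dn_iff.1 h4, h5⟩

/-- from covered configurations to types -/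
theorem lemQf (hM : 2 ≤ M) (hl : Few M σ l) {Gl : Set Ph} (hT : TyL (dS σ) (TS M σ) [l] F fl Gl)
    (t : Term L) (R : List (Term L)) (hOK : OK σ l (t :: R)) :
    ∃ H, Ty (dS σ) (TS M σ) t (GG M σ l F fl R) (dnL (dS σ) R ∧ fl) H ∧ ∀ g, g ∈ H ↔ Own M σ l F fl t R g := by
  induction t generalizing R with
  | eps =>
    refine ⟨∅, rfl, fun g => ?_⟩
    constructor
    · intro h; exact absurd h (by simp)
    · rintro ⟨z, w, h, _⟩; exact absurd h id
  | atom z =>
    have h1 : Cf (dS σ) (atom z :: R) z R := Or.inl ⟨[], ⟨rfl, rfl⟩, rfl⟩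
    obtain ⟨d, ⟨E, h2, h3⟩, h4⟩ := hOK z R (LS.of_cf h1)
    obtain ⟨GE, h5⟩ := TyL_lr hT h2
    obtain ⟨G', Hz, h6, h7, _⟩ := SR2L h5 h3
    have hPR : PR σ l d := ⟨z, E, h2, h3⟩
    have h8 : G0 M σ l F fl R G' := ⟨d, hPR, h4, h6⟩
    have e : (dnL (dS σ) d ∧ fl) = (dnL (dS σ) R ∧ fl) := by rw [h4.dn_iff]
    rw [e] at h7
    rw [GG_eqf hM hl h8]
    refine ⟨Hz, h7, fun g => ?_⟩
    constructor
    · intro hg
      exact ⟨z, [], ⟨rfl, rfl⟩, G', Hz, h8, h7, hg⟩
    · rintro ⟨y, w, ⟨rfl, rfl⟩, G'', Hz'', ⟨d'', h9, h10, h11⟩, h12, h13⟩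
      obtain rfl := UQf hM hl (Or.inl h9) (Or.inl hPR) (h10.trans h4.symm) h11 h6
      rw [TS_fun (by omega) h7 h12]
      exact h13
  | plus s t ihs iht =>
    obtain ⟨H1, h1, h2⟩ := ihs R (hOK.mono (fun a w hw => by
      rcases hw with ⟨v, h, rfl⟩ | ⟨h0, h⟩
      · exact Or.inl ⟨v, Or.inl h, rfl⟩
      · exact Or.inr ⟨Or.inl h0, h⟩))
    obtain ⟨H2, h3, h4⟩ := iht R (hOK.mono (fun a w hw => by
      rcases hw with ⟨v, h, rfl⟩ | ⟨h0, h⟩
      · exact Or.inl ⟨v, Or.inr h, rfl⟩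
      · exact Or.inr ⟨Or.inr h0, h⟩))
    refine ⟨H1 ∪ H2, ⟨H1, H2, h1, h3, rfl⟩, fun g => ?_⟩
    rw [Own_plus, Set.mem_union, h2, h4]
  | seq s t ihs iht =>
    have h0 : OK σ l (s :: t :: R) := hOK.mono (fun a w hw => cf_seq.2 hw)
    obtain ⟨Ht, h1, h2⟩ := iht R h0.tail
    obtain ⟨Hs, h3, h4⟩ := ihs (t :: R) h0
    have e : {g | Own M σ l F fl t R g} = Ht := by ext g; exact (h2 g).symm
    rw [GG_cons, e] at h3
    have e2 : (dnL (dS σ) (t :: R) ∧ fl) = (dn (dS σ) t ∧ dnL (dS σ) R ∧ fl) := by rw [dnL_cons, and_assoc]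
    rw [e2] at h3
    refine ⟨Hs ∪ cut (dn (dS σ) s) Ht, ⟨Ht, Hs, h1, h3, rfl⟩, fun g => ?_⟩
    rw [Own_seq, Set.mem_union, h4]
    simp only [cut, Set.mem_setOf_eq, h2]
  | kstar s t ihs iht =>
    have h0 : OK σ l (t :: R) := hOK.mono (fun a w hw => by
      rcases hw with ⟨v, h, rfl⟩ | ⟨h0, h⟩
      · exact Or.inl ⟨v, Or.inr h, rfl⟩
      · exact Or.inr ⟨h0, h⟩)
    have h0' : OK σ l (s :: kstar s t :: R) := hOK.mono (fun a w hw => by
      rcases hw with ⟨v, h, rfl⟩ | ⟨_, h⟩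
      · exact Or.inl ⟨v ++ [kstar s t], Or.inl ⟨v, h, rfl⟩, by simp⟩
      · exact h)
    obtain ⟨Ht, h1, h2⟩ := iht R h0
    obtain ⟨Hs, h3, h4⟩ := ihs (kstar s t :: R) h0'
    have e : {g | Own M σ l F fl (kstar s t) R g} = Hs ∪ Ht := by
      ext g
      rw [Set.mem_setOf_eq, Own_kstar, Set.mem_union, h4, h2]
    rw [GG_cons, e] at h3
    have e2 : (dnL (dS σ) (kstar s t :: R) ∧ fl) = (dn (dS σ) t ∧ dnL (dS σ) R ∧ fl) := by
      rw [dnL_cons, and_assoc]; rfl
    rw [e2] at h3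
    refine ⟨Hs ∪ Ht, ⟨Ht, Hs, h1, h3, rfl⟩, fun g => ?_⟩
    rw [Own_kstar, Set.mem_union, h4, h2]

theorem transferf (hM : 2 ≤ M) (hl : Few M σ l) (hB : LB (dS σ) [l] [l']) {H : Set Ph}
    (hT : Ty (dS σ) (TS M σ) l F fl H) : Ty (dS σ) (TS M σ) l' F fl H := by
  have hT1 : TyL (dS σ) (TS M σ) [l] F fl (H ∪ cut (dn (dS σ) l) F) := TyL_single.2 ⟨H, hT, rfl⟩
  have hOK : OK σ l [l'] := by
    intro z c hc
    obtain ⟨d, h1, h2⟩ := hB.symm.ls hc
    exact ⟨d, h1, h2.symm⟩
  obtain ⟨H', h1, h2⟩ := lemQf hM hl hT1 l' [] hOK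
  rw [GG_nil] at h1
  have e : (dnL (dS σ) ([] : List (Term L)) ∧ fl) = fl := by simp [dnL_nil]
  rw [e] at h1
  suffices hH : H = H' by rw [hH]; exact h1
  ext g
  rw [h2]
  constructor
  · intro hg
    obtain ⟨z, w, G', Hz, h3, h4, h5, h6⟩ := SR1 hT hg
    obtain ⟨w', h7, h8⟩ := hB.fwd (cf_single.2 h3)
    have e2 : (dnL (dS σ) w ∧ fl) = (dnL (dS σ) w' ∧ fl) := by rw [h8.dn_iff]
    rw [e2] at h5
    refine ⟨z, w', cf_single.1 h7, ?_⟩
    rw [List.append_nil]
    exact ⟨G', Hz, ⟨w, ⟨z, LS.of_cf (cf_single.2 h3)⟩, h8, h4⟩, h5, h6⟩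
  · rintro ⟨z, w', h3, G'', Hz'', ⟨d'', h5, h6, h7⟩, h8, h9⟩
    rw [List.append_nil] at h6 h8
    obtain ⟨w, h10, h11⟩ := hB.bwd (cf_single.2 h3)
    obtain ⟨G', Hz, h12, h13, h14⟩ := SR2 hT (cf_single.1 h10)
    obtain rfl := UQf hM hl (Or.inl ⟨z, LS.of_cf h10⟩) (Or.inl h5) (h11.trans h6.symm) h12 h7
    have e2 : (dnL (dS σ) w ∧ fl) = (dnL (dS σ) w' ∧ fl) := by rw [h11.dn_iff]
    rw [e2] at h13
    rw [TS_fun (by omega) h8 h13] at h9
    exact h14 h9

/-- Instances of a valid equation with few configurations have the same types. -/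
theorem ty_axiomf (hM : 2 ≤ M) (hl : Few M σ l) (hl' : Few M σ l') (hB : LB (dF L) [l] [l'])
    (F : Set Ph) (fl : Prop) (H : Set Ph) :
    Ty (dF A) (TB A M) (inst σ l) F fl H ↔ Ty (dF A) (TB A M) (inst σ l') F fl H := by
  rw [Ty_inst, Ty_inst]
  exact ⟨fun h => transferf hM hl (hB.lift _) h, fun h => transferf hM hl' (hB.symm.lift _) h⟩

end Few

section Derivatives

variable {L : Type*}

/-- The proper derivatives of a term: the terms reached from it by at least one transition. -/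
def states (t : Term L) : Set (Term L) := {t' | TransGen (fun s s' => ∃ a, Tr s a s') t t'}

theorem fold_inj : Function.Injective (fold : List (Term L) → Term L) := by
  intro D
  induction D using List.reverseRecOn with
  | nil =>
    intro D' h
    induction D' using List.reverseRecOn with
    | nil => rfl
    | append_singleton R r _ =>
      rw [fold_append] at h
      simp [fold] at h
  | append_singleton R r ih =>
    intro D' h
    induction D' using List.reverseRecOn with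
    | nil =>
      rw [fold_append] at h
      simp [fold] at h
    | append_singleton R' r' _ =>
      rw [fold_append, fold_append] at h
      obtain ⟨h1, h2⟩ := Term.seq.inj h
      rw [ih h1, h2]

theorem states_of_lr {t : Term L} {x : List (Term L)} (h : LR (dF L) [t] x) :
    x = [t] ∨ TransGen (fun s s' => ∃ a, Tr s a s') t (fold x) := by
  induction h with
  | refl => exact Or.inl rfl
  | tail _ h ih =>
    obtain ⟨a, h⟩ := h
    right
    rcases ih with rfl | ih
    · exact TransGen.single ⟨a, tr_iff.2 ⟨_, cf_single.1 h, rfl⟩⟩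
    · exact ih.tail ⟨a, tr_fold.2 ⟨_, h, rfl⟩⟩

theorem lr_of_sk {da : L → Prop} {D x : List (Term L)} (h : Sk da D x) : LR (dF L) D x := by
  induction h with
  | refl => exact ReflTransGen.refl
  | tail _ h ih =>
    obtain ⟨y, _, h⟩ := h
    exact ih.tail ⟨y, h⟩

theorem lr_plain {da : L → Prop} {D x : List (Term L)} (h : LR da D x) : LR (dF L) D x := by
  induction h with
  | refl => exact ReflTransGen.refl
  | tail _ h ih =>
    obtain ⟨y, h⟩ := h
    obtain ⟨x, h1, h2⟩ := SkC_of_cf h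
    exact (ih.trans (lr_of_sk h1)).tail ⟨y, h2⟩

/-- properly reachable configurations give proper derivatives -/
theorem PR_states {A : Type*} {σ : L → Term A} {t : Term L} {c : List (Term L)} (h : PR σ t c) : fold c ∈ states t := by
  obtain ⟨z, E, h1, h2⟩ := h
  obtain ⟨x, h3, h4⟩ := SkC_of_cf h2
  have h5 : LR (dF L) [t] x := (lr_plain h1).trans (lr_of_sk h3)
  rcases states_of_lr h5 with rfl | h6
  · exact TransGen.single ⟨z, tr_iff.2 ⟨_, cf_single.1 h4, rfl⟩⟩
  · exact h6.tail ⟨z, tr_fold.2 ⟨_, h4, rfl⟩⟩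

theorem few_of_states {A : Type*} {σ : L → Term A} {t : Term L} {n M : ℕ} (h : (states t).encard ≤ n) (hn : n < M) :
    Few M σ t := by
  intro f hf h2
  have h3 : Set.range (fun j => fold (f j)) ⊆ states t := by
    rintro _ ⟨j, rfl⟩
    exact PR_states (h2 j)
  have h4 : (M : ℕ∞) ≤ (Set.range (fun j => fold (f j))).encard := by
    have h := (fold_inj.comp hf).encard_range
    rw [ENat.card_eq_coe_fintype_card, Fintype.card_fin] at h
    exact h
  have h5 : (M : ℕ∞) ≤ n := h4.trans ((Set.encard_le_encard h3).trans h)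
  have h6 : M ≤ n := by exact_mod_cast h5
  omega

end Derivatives

section Main

variable {A : Type*} {M : ℕ}

theorem der_tyf [Nonempty A] (hM : 2 ≤ M) {E : Set (Term (A ⊕ ℕ) × Term (A ⊕ ℕ))}
    (hE : ∀ t u, (t, u) ∈ E → Valid t u ∧ (states t).encard ≤ (M - 1 : ℕ) ∧ (states u).encard ≤ (M - 1 : ℕ))
    {t u : Term (A ⊕ ℕ)} (h : Der E t u) (ρ : ℕ → Term A) : TyEq M (inst (close ρ) t) (inst (close ρ) u) := by
  induction h with
  | @ax t u h τ =>
    obtain ⟨h1, h2, h3⟩ := hE t u h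
    rw [inst_osub, inst_osub]
    refine ⟨?_, ty_axiomf hM (few_of_states h2 (by omega)) (few_of_states h3 (by omega)) (lb_of_valid h1)⟩
    have := (lb_of_bisim (h1 (fun k => inst (close ρ) (τ k)))).dn_iff
    rwa [dnL_single, dnL_single] at this
  | refl t => exact ⟨Iff.rfl, fun _ _ _ => Iff.rfl⟩
  | symm _ ih => exact ⟨ih.1.symm, fun F fl H => (ih.2 F fl H).symm⟩
  | trans _ _ ih1 ih2 => exact ⟨ih1.1.trans ih2.1, fun F fl H => (ih1.2 F fl H).trans (ih2.2 F fl H)⟩
  | plus _ _ ih1 ih2 =>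
    refine ⟨?_, fun F fl H => ?_⟩
    · simp only [inst, dn, ih1.1, ih2.1]
    · simp only [inst, Ty, ih1.2, ih2.2]
  | seq _ _ ih1 ih2 =>
    refine ⟨?_, fun F fl H => ?_⟩
    · simp only [inst, dn, ih1.1, ih2.1]
    · simp only [inst, Ty, ih1.1, ih2.1, ih1.2, ih2.2]
  | kstar _ _ ih1 ih2 =>
    refine ⟨?_, fun F fl H => ?_⟩
    · simp only [inst, dn, ih2.1]
    · simp only [inst, Ty, ih2.1, ih1.2, ih2.2]

/-- The equation number `n` is not derivable from the valid equations with at most `n` proper derivatives. -/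
theorem not_der (a : A) {n : ℕ} (hn : 1 ≤ n) {E : Set (Term (A ⊕ ℕ) × Term (A ⊕ ℕ))}
    (hE : ∀ e ∈ E, Valid e.1 e.2 ∧ (states e.1).encard ≤ n ∧ (states e.2).encard ≤ n) :
    ¬ Der E (emb (lhs a n)) (emb (rhs a)) := by
  intro h
  haveI : Nonempty A := ⟨a⟩
  have key := der_tyf (M := n + 1) (by omega) (fun t u h => hE _ h) h (fun _ => eps)
  rw [inst_emb, inst_emb] at key
  exact not_ty_rhs (by omega) ((key.2 ∅ True RR).1 ty_lhs)

end Main

section Count

variable {A : Type*}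

theorem states_rhs (a : A) : (states (rhs a)).encard ≤ 2 := by
  classical
  have h : states (rhs a) ⊆ ↑({fold [rhs a], fold [atom a, rhs a]} : Finset (Term A)) := by
    intro p hp
    have : ∃ D : List (Term A), (D = [rhs a] ∨ D = [atom a, rhs a]) ∧ p = fold D := by
      induction hp with
      | single h =>
        obtain ⟨b, h⟩ := h
        obtain ⟨w, h1, rfl⟩ := tr_iff.1 h
        exact ⟨w, (st_rhs.1 h1).2, rfl⟩
      | tail _ h ih =>
        obtain ⟨b, h⟩ := h
        obtain ⟨D, h1, rfl⟩ := ih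
        obtain ⟨D', h2, rfl⟩ := tr_fold.1 h
        refine ⟨D', ?_, rfl⟩
        rcases h1 with rfl | rfl
        · exact (st_rhs.1 (cf_single.1 h2)).2
        · exact Or.inl (cf_atom.1 h2).2
    obtain ⟨D, rfl | rfl, rfl⟩ := this <;> simp
  refine (Set.encard_le_encard h).trans ?_
  rw [Set.encard_coe_eq_coe_finsetCard]
  exact_mod_cast Finset.card_le_two

theorem states_lhs (a : A) (m : ℕ) : (states (lhs a m)).encard ≤ (m + 4 : ℕ) := by
  classical
  have h : states (lhs a m) ⊆ ↑(insert (fold [lhs a m]) (insert (fold [atom a, lhs a m]) (insert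
      (fold [atom a, KK a m, lhs a m]) ((Finset.range (m + 1)).image (fun j => fold [KK a j, lhs a m])))) :
      Finset (Term A)) := by
    intro p hp
    have : ∃ D : List (Term A), (D = [lhs a m] ∨ D = [atom a, lhs a m] ∨ D = [atom a, KK a m, lhs a m] ∨
        ∃ j, j ≤ m ∧ D = [KK a j, lhs a m]) ∧ p = fold D := by
      have h0 : ∀ b D', Cf (dF A) [lhs a m] b D' → D' = [lhs a m] ∨ D' = [atom a, KK a m, lhs a m] := by
        intro b D' h
        obtain ⟨rfl, h⟩ := st_lhs.1 (cf_single.1 h)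
        exact h
      induction hp with
      | single h =>
        obtain ⟨b, h⟩ := h
        obtain ⟨w, h1, rfl⟩ := tr_iff.1 h
        refine ⟨w, ?_, rfl⟩
        rcases h0 b w (cf_single.2 h1) with h | h
        · exact Or.inl h
        · exact Or.inr (Or.inr (Or.inl h))
      | tail _ h ih =>
        obtain ⟨b, h⟩ := h
        obtain ⟨D, h1, rfl⟩ := ih
        obtain ⟨D', h2, rfl⟩ := tr_fold.1 h
        refine ⟨D', ?_, rfl⟩
        rcases h1 with rfl | rfl | rfl | ⟨j, hj, rfl⟩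
        · rcases h0 b D' h2 with h | h
          · exact Or.inl h
          · exact Or.inr (Or.inr (Or.inl h))
        · exact Or.inl (cf_atom.1 h2).2
        · exact Or.inr (Or.inr (Or.inr ⟨m, le_rfl, (cf_atom.1 h2).2⟩))
        · rcases h2 with ⟨w, hw, rfl⟩ | ⟨_, hc⟩
          · rcases j with _ | j
            · obtain ⟨rfl, rfl⟩ := st_KK_zero.1 hw
              exact Or.inr (Or.inl rfl)
            · obtain ⟨rfl, rfl⟩ := st_KK_succ.1 hw
              exact Or.inr (Or.inr (Or.inr ⟨j, by omega, rfl⟩))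
          · rcases h0 b D' hc with h | h
            · exact Or.inl h
            · exact Or.inr (Or.inr (Or.inl h))
    obtain ⟨D, h | h | h | ⟨j, hj, h⟩, rfl⟩ := this
    · subst h; simp
    · subst h; simp
    · subst h; simp
    · subst h
      simp only [Finset.coe_insert, Finset.coe_image, Set.mem_insert_iff, Set.mem_image, Finset.mem_coe,
        Finset.mem_range]
      exact Or.inr (Or.inr (Or.inr ⟨j, by omega, rfl⟩))
  refine (Set.encard_le_encard h).trans ?_
  rw [Set.encard_coe_eq_coe_finsetCard]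
  have h1 : ((Finset.range (m + 1)).image (fun j => fold [KK a j, lhs a m])).card ≤ m + 1 :=
    Finset.card_image_le.trans (by simp)
  have h2 := Finset.card_insert_le (fold [atom a, KK a m, lhs a m])
    ((Finset.range (m + 1)).image (fun j => fold [KK a j, lhs a m]))
  have h3 := Finset.card_insert_le (fold [atom a, lhs a m]) (insert
      (fold [atom a, KK a m, lhs a m]) ((Finset.range (m + 1)).image (fun j => fold [KK a j, lhs a m])))
  have h4 := Finset.card_insert_le (fold [lhs a m]) (insert (fold [atom a, lhs a m]) (insert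
      (fold [atom a, KK a m, lhs a m]) ((Finset.range (m + 1)).image (fun j => fold [KK a j, lhs a m]))))
  exact_mod_cast (by omega : _ ≤ m + 4)

end Count

end Pool.Agent.Y668.BB
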